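import Pool.Agent.H27.K3.GeoDefs

/-!
# Products with few factors: definitions
-/

set_option autoImplicit false

open CategoryTheory AlgebraicGeometry

universe u v

namespace Pool.Agent.H27.Lin

open Pool.Agent.H914 Pool.Agent.H914.VarClass Pool.Agent.H914.VarClass.Obj
  Pool.Agent.H914.WeilCohomology Pool.Agent.Q56.FE Pool.Agent.Q56.FR Pool.Agent.H27.K3

/-- The width of the number `γ` of weight `w`: twice the distance of its slope from `w / 2`. -/
def width (lam : Qb → ℚ) (w : ℕ) (γ : Qb) : ℚ := |2 * lam γ - w|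

/-- For every `t`, the field generated by the conjugates of `γ t` and the field generated by the
conjugates of all other `γ s` have only totally real numbers in common. -/
def MeetInReal {I : Type*} (γ : I → Qb) : Prop :=
  ∀ t, ∀ x ∈ IntermediateField.adjoin ℚ {z | IsConjRoot ℚ (γ t) z},
    x ∈ IntermediateField.adjoin ℚ {z | ∃ s, s ≠ t ∧ IsConjRoot ℚ (γ s) z} →
      ∀ φ : Qb →+* ℂ, (φ x).im = 0

/-- The list `s` of types is short: the sum of the numbers `2 c t / deg (γ t)` is at most `D`, and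
each type `t` occurs at most `deg (γ t) / 2 * ⌊D / c t⌋` times, where `c t` is the width of `γ t`. -/
def IsShort {I : Type*} (lam : Qb → ℚ) (w : I → ℕ) (γ : I → Qb) (D : ℚ) (s : List I) : Prop :=
  (s.map fun t => 2 * width lam (w t) (γ t) / (minpoly ℚ (γ t)).natDegree).sum ≤ D ∧
    open Classical in ∀ t, 2 * s.count t ≤
      (minpoly ℚ (γ t)).natDegree * ⌊D / width lam (w t) (γ t)⌋₊

variable {k : Type u} [Field k] {𝒱 : VarClass k} {ops : CycleOps 𝒱}
  {W : WeilCohomology.{u, v} ops} {q : ℕ}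

/-- The Frobenius eigenvalues on the cohomology of `Z` are algebraic integers (this is a theorem of
Deligne). -/
def HasIntegralEigenvalues (F : FrobeniusOver W q) (τ : Qb →+* W.K) (Z : 𝒱.Obj) : Prop :=
  ∀ β ∈ eigenvalues F τ Z, IsIntegral ℤ β

/-- The Frobenius eigenvalues on the cohomology of `Z` have width at most `D`, and so have their
conjugates. -/
def HasWidthAtMost (F : FrobeniusOver W q) (τ : Qb →+* W.K) (lam : Qb → ℚ) (D : ℚ)
    (Z : 𝒱.Obj) : Prop :=
  ∀ (i : ℕ) (β : Qb), ∀ x ∈ genPart F Z (τ β) i, x ≠ 0 → ∀ β', IsConjRoot ℚ β β' →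
    width lam i β' ≤ D

/-- The lists `Y 1, …, Y n` of varieties in the classes `𝒞 (t i) (r i)` with a short list of
types `t 1, …, t n`. -/
def shortLists {I : Type*} (lam : Qb → ℚ) (w : I → ℕ) (γ : I → Qb) (D : ℚ)
    (𝒞 : I → ℕ → Set 𝒱.Obj) : Set (List 𝒱.Obj) :=
  {l | ∃ s : List (I × 𝒱.Obj), s.map Prod.snd = l ∧ (∀ u ∈ s, ∃ r, u.2 ∈ 𝒞 u.1 r) ∧
    IsShort lam w γ D (s.map Prod.fst)}

/-- The generators: the algebraic classes on `V`, the pull-backs of the generalised Tate classes
of the products of `Z` with the varieties of the lists in `𝒮`, and the pull-backs of the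
generalised Tate classes of codimension `w t + r + r'` of the products `Y × Y'` with `Y` in
`𝒞 t r` and `Y'` in `𝒞 t r'`. -/
def shortGenerators {I : Type*} (F : FrobeniusOver W q) (w : I → ℕ) (𝒞 : I → ℕ → Set 𝒱.Obj)
    (𝒮 : Set (List 𝒱.Obj)) (Z V : 𝒱.Obj) : Set (W.H V) :=
  algClass W V ∪ {x | ∃ l ∈ 𝒮, ∃ (f : V ⟶ prodL Z l) (j : ℕ),
      x ∈ W.map f '' tateClasses F (prodL Z l) j} ∪
    {x | ∃ (t : I) (r r' : ℕ), ∃ Y ∈ 𝒞 t r, ∃ Y' ∈ 𝒞 t r', ∃ (f : V ⟶ Y.prod Y'),
      x ∈ W.map f '' tateClasses F (Y.prod Y') (w t + r + r')}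

/-- Let `V` be the product of `Z` with arbitrarily many varieties of the classes `𝒞 t r`. All
generalised Tate classes on `V` are polynomials in the generators. So if the strong Tate conjecture
holds for the products of `Z` with the varieties of the lists in `𝒮`, and for `Y × Y'` in the one
codimension `w t + r + r'` whenever `Y` is in `𝒞 t r` and `Y'` is in `𝒞 t r'`, then it holds for `V`
in all codimensions, and so does the full Tate conjecture (some cycles form a basis of the Tate
classes over the coefficient field, and rationally of the classes of all cycles). -/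
def TateFromShort {I : Type*} (F : FrobeniusOver W q) (w : I → ℕ) (𝒞 : I → ℕ → Set 𝒱.Obj)
    (𝒮 : Set (List 𝒱.Obj)) (Z : 𝒱.Obj) : Prop :=
  ∀ l : List 𝒱.Obj, (∀ Y ∈ l, ∃ t r, Y ∈ 𝒞 t r) →
    (∀ j, tateClasses F (prodL Z l) j ⊆ generated (shortGenerators F w 𝒞 𝒮 Z (prodL Z l))) ∧
    ((∀ l' ∈ 𝒮, ∀ j, TateHolds F (prodL Z l') j) →
      (∀ t r r', ∀ Y ∈ 𝒞 t r, ∀ Y' ∈ 𝒞 t r', TateHolds F (Y.prod Y') (w t + r + r')) →
        ∀ j, TateHolds F (prodL Z l) j ∧ FullTate F (prodL Z l) j)

end Pool.Agent.H27.Lin
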