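import Pool.Agent.H27.K3.Type
import Pool.Agent.H27.Lin.Defs

/-!
# The letters of a relation without dual pairs
-/

set_option autoImplicit false
set_option linter.unusedSectionVars false

namespace Pool.Agent.H27.Lin

open Pool.Agent.Q56.FD hiding Qb
open Pool.Agent.H27.K3 IntermediateField

/-! ### slopes of a relation -/

section Slopes

variable {I : Type*} {p : ℕ} [Fact p.Prime] {a : ℕ} {ι : Qb →+* PadicAlgCl p} {lam : Qb → ℚ}
  {w : I → ℕ} {γ : I → Qb}

/-- the slopes of a relation -/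
lemma relation_slopes (ha : 0 < a) (hlam : ∀ z, (lam z : ℝ) = sl (p ^ a) ι z)
    (hw : ∀ t, IsWeil (p ^ a) (w t) (γ t)) {β : Qb} {i : ℕ} (hβ : IsWeil (p ^ a) i β)
    {L : List (I × Qb)} (hL : ∀ l ∈ L, IsConjRoot ℚ (γ l.1) l.2) {j : ℕ}
    (hprod : β * (L.map Prod.snd).prod = ((p ^ a : ℕ) : Qb) ^ j)
    (hdeg : i + (L.map fun l => w l.1).sum = 2 * j) (g : Qb ≃ₐ[ℚ] Qb) :
    2 * lam (g β) - i + (L.map fun l => 2 * lam (g l.2) - (w l.1 : ℚ)).sum = 0 := by
  have hq : 0 < p ^ a := pow_pos (Fact.out : p.Prime).pos a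
  have hβ0 : β ≠ 0 := hβ.ne_zero hq
  have hz0 : ∀ l ∈ L, l.2 ≠ 0 := fun l hl => ((hw l.1).conj (hL l hl)).ne_zero hq
  have h1 : lam (g β) + (L.map fun l => lam (g l.2)).sum = j := by
    have h2 := congrArg (fun z => lam (g z)) hprod
    simp only [map_mul, map_pow, map_natCast, map_list_prod, List.map_map] at h2
    rw [lam_mul hlam ((map_ne_zero g).2 hβ0) (List.prod_ne_zero (by
      intro h3
      obtain ⟨l, hl, h4⟩ := List.mem_map.1 h3
      exact hz0 l hl ((map_eq_zero g).1 h4))), lam_prod hlam (by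
      intro x hx
      obtain ⟨l, hl, rfl⟩ := List.mem_map.1 hx
      exact (map_ne_zero g).2 (hz0 l hl)), lam_pow hlam (qb_ne p a), lam_q ha hlam, mul_one,
      List.map_map] at h2
    exact h2
  have h2 : ∀ L' : List (I × Qb),
      (L'.map fun l => 2 * lam (g l.2) - (w l.1 : ℚ)).sum =
      2 * (L'.map fun l => lam (g l.2)).sum - (((L'.map fun l => w l.1).sum : ℕ) : ℚ) := by
    intro L'
    induction L' with
    | nil => simp
    | cons l L' ih =>
      rw [List.map_cons, List.sum_cons, ih]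
      simp only [List.map_cons, List.sum_cons]
      push_cast
      ring
  rw [h2]
  have h3 : (i : ℚ) + (((L.map fun l => w l.1).sum : ℕ) : ℚ) = 2 * j := by exact_mod_cast hdeg
  linarith

variable [DecidableEq I]

/-- a letter of K3 type -/
lemma k3_term (ha : 0 < a) (hlam : ∀ z, (lam z : ℝ) = sl (p ^ a) ι z) {t : I}
    (hw : IsWeil (p ^ a) (w t) (γ t)) (h3 : IsK3Type lam (p ^ a) (w t) (γ t)) {z : Qb}
    (hz : IsConjRoot ℚ (γ t) z) (g : Qb ≃ₐ[ℚ] Qb) :
    2 * lam (g z) - w t = (2 * lam (γ t) - w t) * ind (p ^ a) w (t, z) t (γ t) g := by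
  classical
  have hq : 0 < p ^ a := pow_pos (Fact.out : p.Prime).pos a
  have hγ0 : γ t ≠ 0 := hw.ne_zero hq
  have hdual : lam (((p ^ a : ℕ) : Qb) ^ w t / γ t) = w t - lam (γ t) := lam_dual ha hlam hγ0 (w t)
  have hne : γ t ≠ ((p ^ a : ℕ) : Qb) ^ w t / γ t := by
    intro h
    have h1 := congrArg lam h
    rw [hdual] at h1
    apply h3.1
    linarith
  rw [ind]
  simp only [true_and]
  by_cases h0 : g z = γ t
  · rw [if_pos h0, if_neg (h0 ▸ hne), h0]
    ring
  · by_cases h1 : g z = ((p ^ a : ℕ) : Qb) ^ w t / γ t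
    · rw [if_neg h0, if_pos h1, h1, hdual]
      ring
    · rw [if_neg h0, if_neg h1, h3.2 _ (hz.trans (isConjRoot_of_algEquiv z g)) h0 h1]
      ring

lemma cnt_cons (q : ℕ) (w : I → ℕ) (l : I × Qb) (L : List (I × Qb)) (t : I) (ζ : Qb)
    (g : Qb ≃ₐ[ℚ] Qb) : cnt q w (l :: L) t ζ g = ind q w l t ζ g + cnt q w L t ζ g := by
  rw [cnt, List.map_cons, List.sum_cons]
  rfl

/-- the sum over the types -/
lemma sum_types (ha : 0 < a) (hlam : ∀ z, (lam z : ℝ) = sl (p ^ a) ι z)
    (hw : ∀ t, IsWeil (p ^ a) (w t) (γ t)) (h3 : ∀ t, IsK3Type lam (p ^ a) (w t) (γ t))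
    {L : List (I × Qb)} (hL : ∀ l ∈ L, IsConjRoot ℚ (γ l.1) l.2) (S : Finset I)
    (hS : ∀ l ∈ L, l.1 ∈ S) (g : Qb ≃ₐ[ℚ] Qb) :
    (L.map fun l => 2 * lam (g l.2) - (w l.1 : ℚ)).sum =
      ∑ t ∈ S, (2 * lam (γ t) - w t) * cnt (p ^ a) w L t (γ t) g := by
  induction L with
  | nil => simp [cnt]
  | cons l L ih =>
    rw [List.map_cons, List.sum_cons, ih (fun l hl => hL l (List.mem_cons_of_mem _ hl))
      (fun l hl => hS l (List.mem_cons_of_mem _ hl))]
    simp only [cnt_cons, mul_add, Finset.sum_add_distrib]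
    congr 1
    rw [Finset.sum_eq_single l.1]
    · exact k3_term ha hlam (hw l.1) (h3 l.1) (hL l List.mem_cons_self) g
    · intro t _ ht
      rw [ind, if_neg (fun h => ht h.1.symm), if_neg (fun h => ht h.1.symm), sub_zero, mul_zero]
    · intro h
      exact absurd (hS l List.mem_cons_self) h

end Slopes

/-! ### signs -/

/-- For every `t` there is an automorphism of the field of algebraic numbers which acts as complex
conjugation on the conjugates of `γ t` and trivially on the conjugates of all other `γ s`. -/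
def SignsIndependent {I : Type*} (q : ℕ) (w : I → ℕ) (γ : I → Qb) : Prop :=
  ∀ t, ∃ σ : Qb ≃ₐ[ℚ] Qb, (∀ z, IsConjRoot ℚ (γ t) z → σ z = (q : Qb) ^ w t / z) ∧
    ∀ s, s ≠ t → ∀ z, IsConjRoot ℚ (γ s) z → σ z = z

/-- the automorphisms exist if the fields meet in totally real numbers -/
theorem signsIndependent_of {I : Type*} {q : ℕ} (hq : 0 < q) {w : I → ℕ} {γ : I → Qb}
    (hw : ∀ t, IsWeil q (w t) (γ t)) (h : MeetInReal γ) : SignsIndependent q w γ := by
  intro t
  let T : Set Qb := {z | IsConjRoot ℚ (γ t) z}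
  let L : IntermediateField ℚ Qb := IntermediateField.adjoin ℚ T
  let M : IntermediateField ℚ Qb :=
    IntermediateField.adjoin ℚ {z | ∃ s, s ≠ t ∧ IsConjRoot ℚ (γ s) z}
  have hT : T = (minpoly ℚ (γ t)).rootSet Qb := by
    ext z
    exact isConjRoot_iff_mem_minpoly_rootSet (Algebra.IsIntegral.isIntegral (γ t))
  have hsp : (minpoly ℚ (γ t)).IsSplittingField ℚ L := by
    change (minpoly ℚ (γ t)).IsSplittingField ℚ (IntermediateField.adjoin ℚ T)
    rw [hT]
    exact IntermediateField.adjoin_rootSet_isSplittingField (IsAlgClosed.splits _)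
  have hfd : FiniteDimensional ℚ L := Polynomial.IsSplittingField.finiteDimensional L
    (minpoly ℚ (γ t))
  have hnorm : Normal ℚ L := Normal.of_isSplittingField (minpoly ℚ (γ t))
  have hgal : IsGalois ℚ L := ⟨⟩
  obtain ⟨φ⟩ := exists_cpx
  obtain ⟨c, hc⟩ := exists_conj φ
  let res := AlgEquiv.restrictNormalHom (F := ℚ) (K₁ := Qb) L
  let H : Subgroup (L ≃ₐ[ℚ] L) := M.fixingSubgroup.map res
  have hcH : res c ∈ H := by
    rw [← IntermediateField.fixingSubgroup_fixedField H]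
    rw [IntermediateField.mem_fixingSubgroup_iff]
    intro x hx
    rw [IntermediateField.mem_fixedField_iff] at hx
    have hxM : (x : Qb) ∈ M := by
      rw [← InfiniteGalois.fixedField_fixingSubgroup M, IntermediateField.mem_fixedField_iff]
      intro σ hσ
      have h1 := hx (res σ) ⟨σ, hσ, rfl⟩
      have h2 := AlgEquiv.restrictNormal_commutes σ L x
      change ((res σ x : L) : Qb) = σ x at h2
      rw [← h2, h1]
    have hreal := h t x x.2 hxM φ
    apply Subtype.ext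
    have h2 := AlgEquiv.restrictNormal_commutes c L x
    change ((res c x : L) : Qb) = c x at h2
    rw [h2]
    apply φ.injective
    rw [hc]
    exact Complex.conj_eq_iff_im.2 hreal
  obtain ⟨σ, hσ, hσc⟩ := hcH
  refine ⟨σ, fun z hz => ?_, fun s hs z hz => ?_⟩
  · have hzL : z ∈ L := IntermediateField.subset_adjoin ℚ T hz
    have h1 := AlgEquiv.restrictNormal_commutes σ L ⟨z, hzL⟩
    have h2 := AlgEquiv.restrictNormal_commutes c L ⟨z, hzL⟩
    change ((res σ ⟨z, hzL⟩ : L) : Qb) = σ z at h1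
    change ((res c ⟨z, hzL⟩ : L) : Qb) = c z at h2
    rw [hσc] at h1
    rw [← h1, h2]
    exact ((hw t).conj hz).conj_eq hq hc
  · exact (IntermediateField.mem_fixingSubgroup_iff _ σ).1 hσ z
      (IntermediateField.subset_adjoin ℚ _ ⟨s, hs, hz⟩)

section Signs

variable {I : Type*} [DecidableEq I] {q : ℕ} {w : I → ℕ} {γ : I → Qb}

/-- automorphisms with arbitrary signs -/
lemma exists_flip (hq : 0 < q) (hw : ∀ t, IsWeil q (w t) (γ t)) (h : SignsIndependent q w γ)
    (T : Finset I) : ∃ σ : Qb ≃ₐ[ℚ] Qb, ∀ s z, IsConjRoot ℚ (γ s) z →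
      σ z = if s ∈ T then (q : Qb) ^ w s / z else z := by
  induction T using Finset.induction_on with
  | empty => exact ⟨AlgEquiv.refl, fun s z _ => by simp⟩
  | insert t T ht ih =>
    obtain ⟨σ, hσ⟩ := ih
    obtain ⟨ρ, hρ, hρ'⟩ := h t
    refine ⟨σ.trans ρ, fun s z hz => ?_⟩
    change ρ (σ z) = _
    rw [hσ s z hz]
    by_cases hs : s = t
    · subst hs
      rw [if_neg ht, if_pos (Finset.mem_insert_self _ _)]
      exact hρ z hz
    · have h1 : s ∈ insert t T ↔ s ∈ T := by simp [hs]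
      simp only [h1]
      split_ifs with h2
      · exact hρ' s hs _ (hz.trans (((hw s).conj hz).dual hq))
      · exact hρ' s hs _ hz

/-- the effect of the signs -/
lemma cnt_flip (hq : 0 < q) (hw : ∀ t, IsWeil q (w t) (γ t)) {T : Finset I} {σ : Qb ≃ₐ[ℚ] Qb}
    (hσ : ∀ s z, IsConjRoot ℚ (γ s) z → σ z = if s ∈ T then (q : Qb) ^ w s / z else z)
    {L : List (I × Qb)} (hL : ∀ l ∈ L, IsConjRoot ℚ (γ l.1) l.2) (t : I) (g : Qb ≃ₐ[ℚ] Qb) :
    cnt q w L t (γ t) (g.trans σ) =
      if t ∈ T then - cnt q w L t (γ t) g else cnt q w L t (γ t) g := by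
  induction L with
  | nil => simp [cnt]
  | cons l L ih =>
    rw [cnt_cons, cnt_cons, ih (fun l hl => hL l (List.mem_cons_of_mem _ hl))]
    have h1 : ind q w l t (γ t) (g.trans σ) =
        if t ∈ T then - ind q w l t (γ t) g else ind q w l t (γ t) g := by
      by_cases ht : l.1 = t
      · have hz : IsConjRoot ℚ (γ l.1) (g l.2) :=
          (hL l List.mem_cons_self).trans (isConjRoot_of_algEquiv l.2 g)
        have hz0 : g l.2 ≠ 0 := ((hw l.1).conj hz).ne_zero hq
        have hγ0 : γ t ≠ 0 := (hw t).ne_zero hq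
        have hq0 : ((q : Qb) ^ w t) ≠ 0 := pow_ne_zero _ (by exact_mod_cast hq.ne')
        have h2 : (g.trans σ) l.2 = if t ∈ T then (q : Qb) ^ w t / g l.2 else g l.2 := by
          change σ (g l.2) = _
          rw [hσ l.1 _ hz, ht]
        have h3 : (q : Qb) ^ w t / g l.2 = γ t ↔ g l.2 = (q : Qb) ^ w t / γ t := by
          rw [div_eq_iff hz0, eq_div_iff hγ0, eq_comm, mul_comm]
        have h4 : (q : Qb) ^ w t / g l.2 = (q : Qb) ^ w t / γ t ↔ g l.2 = γ t := by
          rw [div_eq_div_iff hz0 hγ0, mul_right_inj' hq0, eq_comm]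
        by_cases hT : t ∈ T
        · rw [if_pos hT] at h2
          classical
          rw [if_pos hT, ind, ind, h2]
          simp only [h3, h4]
          ring
        · rw [if_neg hT] at h2
          rw [if_neg hT, ind, ind, h2]
      · unfold ind
        simp only [ht, false_and, if_false, sub_zero, neg_zero, ite_self]
    rw [h1]
    split_ifs <;> ring

/-- the sum of the absolute values -/
lemma sum_abs_le (hq : 0 < q) (hw : ∀ t, IsWeil q (w t) (γ t)) (h : SignsIndependent q w γ)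
    {L : List (I × Qb)} (hL : ∀ l ∈ L, IsConjRoot ℚ (γ l.1) l.2) (S : Finset I) (s : I → ℚ)
    {D : ℚ} (hb : ∀ g : Qb ≃ₐ[ℚ] Qb, |∑ t ∈ S, s t * cnt q w L t (γ t) g| ≤ D)
    (g : Qb ≃ₐ[ℚ] Qb) : ∑ t ∈ S, |s t| * |cnt q w L t (γ t) g| ≤ D := by
  classical
  obtain ⟨σ, hσ⟩ := exists_flip hq hw h (S.filter fun t => s t * cnt q w L t (γ t) g < 0)
  refine le_trans (le_of_eq ?_) ((le_abs_self _).trans (hb (g.trans σ)))
  refine Finset.sum_congr rfl fun t ht => ?_
  rw [cnt_flip hq hw hσ hL, ← abs_mul]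
  by_cases h0 : s t * cnt q w L t (γ t) g < 0
  · rw [if_pos (Finset.mem_filter.2 ⟨ht, h0⟩), abs_of_neg h0]
    ring
  · have h1 : t ∉ S.filter fun t => s t * cnt q w L t (γ t) g < 0 :=
      fun h1 => h0 (Finset.mem_filter.1 h1).2
    rw [if_neg h1, abs_of_nonneg (not_lt.1 h0)]

end Signs

/-! ### conjugates -/

section Conj

/-- the conjugates of a number -/
noncomputable def cj (γ : Qb) : Finset Qb :=
  ((minpoly ℚ γ).rootSet_finite Qb).toFinset

lemma mem_cj {γ z : Qb} : z ∈ cj γ ↔ IsConjRoot ℚ γ z := by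
  rw [cj, Set.Finite.mem_toFinset, isConjRoot_iff_mem_minpoly_rootSet
    (Algebra.IsIntegral.isIntegral γ)]

lemma card_cj (γ : Qb) : (cj γ).card = (minpoly ℚ γ).natDegree := by
  have h1 := Polynomial.card_rootSet_eq_natDegree (K := Qb)
    (minpoly.irreducible (Algebra.IsIntegral.isIntegral (R := ℚ) γ)).separable
    (IsAlgClosed.splits _)
  rw [← h1, cj, ← Set.ncard_eq_toFinset_card _ ((minpoly ℚ γ).rootSet_finite Qb),
    ← Nat.card_eq_fintype_card]
  rfl

lemma deg_pos (γ : Qb) : 0 < (minpoly ℚ γ).natDegree :=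
  minpoly.natDegree_pos (Algebra.IsIntegral.isIntegral γ)

variable (E : IntermediateField ℚ Qb) [FiniteDimensional ℚ E]

/-- the average over the embeddings -/
lemma average {γ : Qb} (hE : ∀ z, IsConjRoot ℚ γ z → z ∈ E) (f : Qb → ℚ) :
    (minpoly ℚ γ).natDegree * ∑ e : E →ₐ[ℚ] Qb, f ((lft E e).symm γ) =
      Fintype.card (E →ₐ[ℚ] Qb) * ∑ z ∈ cj γ, f z := by
  classical
  let N : Qb → Qb → ℕ := fun ζ ζ' =>
    (Finset.univ.filter fun e : E →ₐ[ℚ] Qb => lft E e ζ = ζ').card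
  have h1 : ∀ ζ ∈ cj γ, ∀ ζ', ∀ h : Qb ≃ₐ[ℚ] Qb, N ζ (h ζ') = N ζ ζ' := by
    intro ζ hζ ζ' h
    symm
    refine Finset.card_bij (fun e _ => compEquiv E h e) ?_ ?_ ?_
    · intro e he
      rw [Finset.mem_filter] at he ⊢
      refine ⟨Finset.mem_univ _, ?_⟩
      rw [show compEquiv E h e = (h : Qb →ₐ[ℚ] Qb).comp e from rfl,
        lft_comp E e h (hE ζ (mem_cj.1 hζ)), he.2]
    · intro e _ e' _ hee
      exact (compEquiv E h).injective hee
    · intro e he
      rw [Finset.mem_filter] at he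
      refine ⟨(compEquiv E h).symm e, ?_, (compEquiv E h).apply_symm_apply e⟩
      rw [Finset.mem_filter]
      refine ⟨Finset.mem_univ _, ?_⟩
      apply h.injective
      rw [← lft_comp E _ h (hE ζ (mem_cj.1 hζ)), ← he.2]
      exact congrArg (fun e => lft E e ζ) ((compEquiv E h).apply_symm_apply e)
  have h2 : ∀ ζ ∈ cj γ, (minpoly ℚ γ).natDegree * N ζ γ = Fintype.card (E →ₐ[ℚ] Qb) := by
    intro ζ hζ
    have h3 : Fintype.card (E →ₐ[ℚ] Qb) = ∑ ζ' ∈ cj γ, N ζ ζ' := by
      rw [← Finset.card_univ]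
      refine Finset.card_eq_sum_card_fiberwise fun e _ => ?_
      exact mem_cj.2 ((mem_cj.1 hζ).trans (isConjRoot_of_algEquiv ζ _))
    rw [h3, ← card_cj, ← smul_eq_mul, ← Finset.sum_const]
    refine Finset.sum_congr rfl fun ζ' hζ' => ?_
    obtain ⟨h, hh⟩ := isConjRoot_iff_exists_algEquiv.1 (mem_cj.1 hζ')
    rw [← hh]
    exact h1 ζ hζ ζ' h
  have h4 : ∀ e : E →ₐ[ℚ] Qb, f ((lft E e).symm γ) =
      ∑ ζ ∈ cj γ, if lft E e ζ = γ then f ζ else 0 := by
    intro e
    rw [Finset.sum_eq_single ((lft E e).symm γ)]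
    · rw [if_pos ((lft E e).apply_symm_apply γ)]
    · intro ζ _ hζ
      rw [if_neg]
      intro h
      apply hζ
      rw [← h]
      exact ((lft E e).symm_apply_apply ζ).symm
    · intro h
      exact absurd (mem_cj.2 (isConjRoot_of_algEquiv γ _)) h
  rw [Finset.sum_congr rfl fun e _ => h4 e, Finset.sum_comm, Finset.mul_sum, Finset.mul_sum]
  refine Finset.sum_congr rfl fun ζ hζ => ?_
  rw [← Finset.sum_filter, Finset.sum_const, nsmul_eq_mul, ← h2 ζ hζ]
  push_cast
  ring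

end Conj

/-! ### counting -/

section Count

variable {I : Type*} [DecidableEq I] {q : ℕ} {w : I → ℕ} {γ : I → Qb}

/-- the counting function is a difference of two multiplicities -/
lemma cnt_eq_count [DecidableEq Qb] (L : List (I × Qb)) (t : I) (ζ : Qb) :
    cnt q w L t ζ AlgEquiv.refl = (L.count (t, ζ) : ℚ) - L.count (t, (q : Qb) ^ w t / ζ) := by
  induction L with
  | nil => simp [cnt]
  | cons l L ih =>
    rw [cnt_cons, ih, ind, List.count_cons, List.count_cons]
    have h1 : ∀ ζ : Qb, (l.1 = t ∧ (AlgEquiv.refl : Qb ≃ₐ[ℚ] Qb) l.2 = ζ) ↔ l == (t, ζ) := by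
      intro ζ
      rw [beq_iff_eq, Prod.ext_iff]
      rfl
    simp only [h1]
    push_cast
    split_ifs <;> ring

/-- the number of the letters of a type -/
lemma sum_count [DecidableEq Qb] {L : List (I × Qb)} (hL : ∀ l ∈ L, IsConjRoot ℚ (γ l.1) l.2)
    (t : I) : ∑ ζ ∈ cj (γ t), L.count (t, ζ) = (L.map Prod.fst).count t := by
  induction L with
  | nil => simp
  | cons l L ih =>
    simp only [List.count_cons, Finset.sum_add_distrib, List.map_cons]
    rw [ih fun l hl => hL l (List.mem_cons_of_mem _ hl)]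
    congr 1
    by_cases ht : l.1 = t
    · rw [Finset.sum_eq_single l.2]
      · subst ht
        simp
      · intro ζ _ hζ
        rw [if_neg]
        rw [beq_iff_eq, Prod.ext_iff]
        exact fun h => hζ h.2.symm
      · intro h
        subst ht
        exact absurd (mem_cj.2 (hL l List.mem_cons_self)) h
    · rw [Finset.sum_eq_zero, if_neg]
      · rwa [beq_iff_eq]
      · intro ζ _
        rw [if_neg]
        rw [beq_iff_eq, Prod.ext_iff]
        exact fun h => ht h.1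

/-- words without dual pairs -/
lemma two_count_le (hq : 0 < q) (hw : ∀ t, IsWeil q (w t) (γ t)) {L : List (I × Qb)}
    (hL : ∀ l ∈ L, IsConjRoot ℚ (γ l.1) l.2)
    (hno : ∀ l ∈ L, (l.1, (q : Qb) ^ w l.1 / l.2) ∉ L) (t : I) :
    2 * ((L.map Prod.fst).count t : ℚ) ≤
      ∑ ζ ∈ cj (γ t), |cnt q w L t ζ AlgEquiv.refl| := by
  classical
  have hq0 : ((q : Qb) ^ w t) ≠ 0 := pow_ne_zero _ (by exact_mod_cast hq.ne')
  have h1 : ∀ ζ, |cnt q w L t ζ AlgEquiv.refl| =
      (L.count (t, ζ) : ℚ) + L.count (t, (q : Qb) ^ w t / ζ) := by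
    intro ζ
    rw [cnt_eq_count]
    by_cases h : (t, ζ) ∈ L
    · rw [List.count_eq_zero_of_not_mem (hno _ h)]
      simp
    · rw [List.count_eq_zero_of_not_mem h]
      simp
  have h2 : ∑ ζ ∈ cj (γ t), L.count (t, (q : Qb) ^ w t / ζ) = ∑ ζ ∈ cj (γ t), L.count (t, ζ) := by
    refine Finset.sum_nbij' (fun ζ => (q : Qb) ^ w t / ζ) (fun ζ => (q : Qb) ^ w t / ζ)
      ?_ ?_ ?_ ?_ ?_
    · intro ζ hζ
      exact mem_cj.2 ((mem_cj.1 hζ).trans (((hw t).conj (mem_cj.1 hζ)).dual hq))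
    · intro ζ hζ
      exact mem_cj.2 ((mem_cj.1 hζ).trans (((hw t).conj (mem_cj.1 hζ)).dual hq))
    · intro ζ _
      exact div_div_cancel₀ hq0
    · intro ζ _
      exact div_div_cancel₀ hq0
    · intro ζ _
      rfl
  rw [Finset.sum_congr rfl fun ζ _ => h1 ζ, Finset.sum_add_distrib]
  rw [← Nat.cast_sum, ← Nat.cast_sum, h2, sum_count hL]
  linarith

lemma cnt_symm (L : List (I × Qb)) (t : I) (ζ : Qb) (g : Qb ≃ₐ[ℚ] Qb) :
    cnt q w L t ζ g = cnt q w L t (g.symm ζ) AlgEquiv.refl := by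
  have h := cnt_comp (q := q) (w := w) L t (g.symm ζ) g AlgEquiv.refl g (fun l _ => rfl)
  rw [AlgEquiv.apply_symm_apply] at h
  exact h

/-- **The bound.** -/
theorem isShort_of {I : Type*} [inst : DecidableEq I] {q : ℕ} {w : I → ℕ} {γ : I → Qb}
    (hq : 0 < q) (hw : ∀ t, IsWeil q (w t) (γ t)) (h : SignsIndependent q w γ)
    {lam : Qb → ℚ} (hs : ∀ t, 2 * lam (γ t) ≠ w t)
    {L : List (I × Qb)} (hL : ∀ l ∈ L, IsConjRoot ℚ (γ l.1) l.2)
    (hno : ∀ l ∈ L, (l.1, (q : Qb) ^ w l.1 / l.2) ∉ L) {D : ℚ}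
    (hb : ∀ g : Qb ≃ₐ[ℚ] Qb, |∑ t ∈ (L.map Prod.fst).toFinset,
      (2 * lam (γ t) - w t) * cnt q w L t (γ t) g| ≤ D) : IsShort lam w γ D (L.map Prod.fst) := by
  obtain rfl : inst = fun a b => Classical.propDecidable (a = b) := Subsingleton.elim _ _
  classical
  set S : Finset I := (L.map Prod.fst).toFinset with hS
  have hD := sum_abs_le hq hw h hL S (fun t => 2 * lam (γ t) - w t) hb
  have hc : ∀ t, 0 < width lam (w t) (γ t) := fun t => abs_pos.2 (sub_ne_zero.2 (hs t))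
  have hdeg : ∀ t, (0 : ℚ) < (minpoly ℚ (γ t)).natDegree := fun t => by
    exact_mod_cast deg_pos (γ t)
  have hD0 : 0 ≤ D := (Finset.sum_nonneg fun t _ => mul_nonneg (abs_nonneg _)
    (abs_nonneg _)).trans (hD AlgEquiv.refl)
  constructor
  · obtain ⟨E, hfd, hE⟩ := exists_field (S.biUnion fun t => cj (γ t))
    have hE' : ∀ t ∈ S, ∀ z, IsConjRoot ℚ (γ t) z → z ∈ E := fun t ht z hz =>
      hE z (Finset.mem_biUnion.2 ⟨t, ht, mem_cj.2 hz⟩)
    have hcard : (0 : ℚ) < Fintype.card (E →ₐ[ℚ] Qb) := by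
      exact_mod_cast Fintype.card_pos_iff.2 ⟨E.val⟩
    have h1 : ((L.map Prod.fst).map fun t =>
        2 * width lam (w t) (γ t) / (minpoly ℚ (γ t)).natDegree).sum =
        ∑ t ∈ S, ((L.map Prod.fst).count t : ℚ) *
          (2 * width lam (w t) (γ t) / (minpoly ℚ (γ t)).natDegree) := by
      rw [Finset.sum_list_map_count]
      simp only [nsmul_eq_mul]
      rfl
    rw [h1]
    refine le_of_mul_le_mul_left ?_ hcard
    rw [Finset.mul_sum]
    calc ∑ t ∈ S, (Fintype.card (E →ₐ[ℚ] Qb) : ℚ) * (((L.map Prod.fst).count t : ℚ) *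
          (2 * width lam (w t) (γ t) / (minpoly ℚ (γ t)).natDegree))
        ≤ ∑ t ∈ S, ∑ e : E →ₐ[ℚ] Qb, width lam (w t) (γ t) *
            |cnt q w L t (γ t) (lft E e)| := by
          refine Finset.sum_le_sum fun t ht => ?_
          have h2 := average E (hE' t ht) (fun ζ => |cnt q w L t ζ AlgEquiv.refl|)
          simp only [← cnt_symm] at h2
          have h3 := two_count_le hq hw hL hno t
          rw [← Finset.mul_sum]
          have h4 : (Fintype.card (E →ₐ[ℚ] Qb) : ℚ) * (2 * ((L.map Prod.fst).count t : ℚ)) ≤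
              (minpoly ℚ (γ t)).natDegree * ∑ e : E →ₐ[ℚ] Qb, |cnt q w L t (γ t) (lft E e)| := by
            rw [h2]
            exact mul_le_mul_of_nonneg_left h3 hcard.le
          have h5 : (Fintype.card (E →ₐ[ℚ] Qb) : ℚ) * (((L.map Prod.fst).count t : ℚ) *
              (2 * width lam (w t) (γ t) / (minpoly ℚ (γ t)).natDegree)) =
              width lam (w t) (γ t) * ((Fintype.card (E →ₐ[ℚ] Qb) : ℚ) *
                (2 * ((L.map Prod.fst).count t : ℚ)) / (minpoly ℚ (γ t)).natDegree) := by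
            ring
          rw [h5]
          refine mul_le_mul_of_nonneg_left ?_ (hc t).le
          rw [div_le_iff₀ (hdeg t), mul_comm (∑ e : E →ₐ[ℚ] Qb, _)]
          exact h4
      _ = ∑ e : E →ₐ[ℚ] Qb, ∑ t ∈ S, width lam (w t) (γ t) *
            |cnt q w L t (γ t) (lft E e)| := Finset.sum_comm
      _ ≤ ∑ e : E →ₐ[ℚ] Qb, D := Finset.sum_le_sum fun e _ => hD (lft E e)
      _ = (Fintype.card (E →ₐ[ℚ] Qb) : ℚ) * D := by
          rw [Finset.sum_const, Finset.card_univ, nsmul_eq_mul]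
  · intro t
    by_cases ht : t ∈ S
    · have h1 : ∀ ζ ∈ cj (γ t), |cnt q w L t ζ AlgEquiv.refl| ≤
          (⌊D / width lam (w t) (γ t)⌋₊ : ℚ) := by
        intro ζ hζ
        obtain ⟨g, hg⟩ := isConjRoot_iff_exists_algEquiv.1 (mem_cj.1 hζ)
        have h2 : cnt q w L t ζ AlgEquiv.refl = cnt q w L t (γ t) g := by
          rw [cnt_symm L t (γ t) g, ← hg, AlgEquiv.symm_apply_apply]
        have h3 : width lam (w t) (γ t) * |cnt q w L t ζ AlgEquiv.refl| ≤ D := by
          rw [h2]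
          exact (Finset.single_le_sum (f := fun t => |2 * lam (γ t) - w t| *
            |cnt q w L t (γ t) g|) (fun t _ => mul_nonneg (abs_nonneg _) (abs_nonneg _)) ht).trans
              (hD g)
        rw [cnt_eq_count] at h3 ⊢
        have h4 : |(L.count (t, ζ) : ℚ) - L.count (t, (q : Qb) ^ w t / ζ)| =
            ((((L.count (t, ζ) : ℤ) - L.count (t, (q : Qb) ^ w t / ζ)).natAbs : ℕ) : ℚ) := by
          rw [Nat.cast_natAbs]
          push_cast
          rfl
        rw [h4] at h3 ⊢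
        have h5 : ((((L.count (t, ζ) : ℤ) - L.count (t, (q : Qb) ^ w t / ζ)).natAbs : ℕ) : ℚ) ≤
            D / width lam (w t) (γ t) := by
          rw [le_div_iff₀ (hc t), mul_comm]
          exact h3
        exact_mod_cast Nat.le_floor h5
      have h2 : 2 * ((L.map Prod.fst).count t : ℚ) ≤
          (minpoly ℚ (γ t)).natDegree * (⌊D / width lam (w t) (γ t)⌋₊ : ℚ) := by
        refine (two_count_le hq hw hL hno t).trans ((Finset.sum_le_sum h1).trans ?_)
        rw [Finset.sum_const, card_cj, nsmul_eq_mul]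
      have h3 : 2 * (L.map Prod.fst).count t ≤
          (minpoly ℚ (γ t)).natDegree * ⌊D / width lam (w t) (γ t)⌋₊ := by exact_mod_cast h2
      exact h3
    · have h3 : 2 * (L.map Prod.fst).count t ≤
          (minpoly ℚ (γ t)).natDegree * ⌊D / width lam (w t) (γ t)⌋₊ := by
        rw [List.count_eq_zero_of_not_mem (fun h => ht (List.mem_toFinset.2 h)), mul_zero]
        exact Nat.zero_le _
      exact h3

end Count

section Main

variable {I : Type*} {p : ℕ} [Fact p.Prime] {a : ℕ} {ι : Qb →+* PadicAlgCl p} {lam : Qb → ℚ}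
  {w : I → ℕ} {γ : I → Qb}

/-- **The letters of a relation without dual pairs.** -/
theorem isShort (ha : 0 < a) (hlam : ∀ z, (lam z : ℝ) = sl (p ^ a) ι z)
    (hw : ∀ t, IsWeil (p ^ a) (w t) (γ t)) (h3 : ∀ t, IsK3Type lam (p ^ a) (w t) (γ t))
    (h : SignsIndependent (p ^ a) w γ) {β : Qb} {i : ℕ} (hβ : IsWeil (p ^ a) i β)
    {D : ℚ} (hD : ∀ β', IsConjRoot ℚ β β' → width lam i β' ≤ D)
    {L : List (I × Qb)} (hL : ∀ l ∈ L, IsConjRoot ℚ (γ l.1) l.2) {j : ℕ}
    (hprod : β * (L.map Prod.snd).prod = ((p ^ a : ℕ) : Qb) ^ j)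
    (hdeg : i + (L.map fun l => w l.1).sum = 2 * j)
    (hno : ∀ l ∈ L, (l.1, ((p ^ a : ℕ) : Qb) ^ w l.1 / l.2) ∉ L) :
    IsShort lam w γ D (L.map Prod.fst) := by
  classical
  have hq : 0 < p ^ a := pow_pos (Fact.out : p.Prime).pos a
  refine isShort_of hq hw h (fun t => (h3 t).1) hL hno fun g => ?_
  have h1 := relation_slopes ha hlam hw hβ hL hprod hdeg g
  rw [sum_types ha hlam hw h3 hL (L.map Prod.fst).toFinset
    (fun l hl => List.mem_toFinset.2 (List.mem_map.2 ⟨l, hl, rfl⟩)) g] at h1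
  have h2 := hD (g β) (isConjRoot_of_algEquiv β g)
  rw [width] at h2
  rw [show ∑ t ∈ (L.map Prod.fst).toFinset, (2 * lam (γ t) - w t) *
    cnt (p ^ a) w L t (γ t) g = - (2 * lam (g β) - i) by linarith, abs_neg]
  exact h2

end Main

end Pool.Agent.H27.Lin
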