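import Pool.Agent.H27.K3.Main
import Pool.Agent.H27.Lin.Defs

/-!
# The widths of the Frobenius eigenvalues
-/

set_option autoImplicit false
set_option linter.unusedSectionVars false

open CategoryTheory AlgebraicGeometry

universe u v

namespace Pool.Agent.H27.Lin

open Pool.Agent.H914 Pool.Agent.H447 Pool.Agent.H914.VarClass Pool.Agent.H914.VarClass.Obj
  Pool.Agent.H914.WeilCohomology Pool.Agent.H281R3.HT Pool.Agent.W534
  Pool.Agent.W458.RK Pool.Agent.W458.MF Pool.Agent.W536.RR Pool.Agent.Y133.Half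
open Pool.Agent.Q56.FD hiding Qb
open Pool.Agent.Q56.FE Pool.Agent.Q56.FR Pool.Agent.H27.K3 Pool.Agent.H485R3

variable {k : Type u} [Field k] {𝒱 : VarClass k} {ops : CycleOps 𝒱}

variable {W : WeilCohomology.{u, v} ops} {p : ℕ} [Fact p.Prime] {a : ℕ}
  {F : FrobeniusOver W (p ^ a)} {τ : Qb →+* W.K} {Z : 𝒱.Obj} {lam : Qb → ℚ}
  {ι : Qb →+* PadicAlgCl p}

/-- the dual eigenvalue -/
lemma exists_dual_eig [IsAlgClosed W.K] {i : ℕ} {ν : W.K} {x : W.H Z} (hx : x ∈ W.gr Z i)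
    (hxg : x ∈ (fr F Z).maxGenEigenspace ν) (hx0 : x ≠ 0) :
    ∃ μ : W.K, ν * μ = ((p ^ a : ℕ) : W.K) ^ Z.dim ∧
      ∃ (i' : ℕ), ∃ y ∈ genPart F Z μ i', y ≠ 0 := by
  have h1 : ∃ (i' : ℕ), ∃ b ∈ W.gr Z i', W.tr Z (x * b) ≠ 0 := by
    by_contra hcon
    push Not at hcon
    refine hx0 (W.nondeg x fun b => ?_)
    refine gr_induction (W.isInternal Z) (p := fun b => W.tr Z (x * b) = 0) ?_ ?_ b
    · intro i' b hb
      exact hcon i' b hb
    · intro b c hb hc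
      rw [mul_add, map_add, hb, hc, add_zero]
  obtain ⟨i', b, hb, hxb⟩ := h1
  have h2 : i + i' = 2 * Z.dim := by
    by_contra hne
    exact hxb (W.tr_eq_zero (W.mul_mem hx hb) hne)
  have h3 : ∃ (μ : W.K) (y : W.H Z), y ∈ W.gr Z i' ∧ y ∈ (fr F Z).maxGenEigenspace μ ∧
      W.tr Z (x * y) ≠ 0 := by
    by_contra hcon
    push Not at hcon
    apply hxb
    have h4 := span_hom_gen (F := F) hb
    clear hxb hb
    induction h4 using Submodule.span_induction with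
    | mem y hy =>
      obtain ⟨μ, hy, hyg⟩ := hy
      exact hcon μ y hy hyg
    | zero => rw [mul_zero, map_zero]
    | add y z _ _ hy hz => rw [mul_add, map_add, hy, hz, add_zero]
    | smul c y _ hy => rw [mul_smul_comm, map_smul, hy, smul_zero]
  obtain ⟨μ, y, hy, hyg, hxy⟩ := h3
  have hxy0 : x * y ≠ 0 := by
    intro h
    rw [h, map_zero] at hxy
    exact hxy rfl
  have h5 : x * y ∈ (fr F Z).maxGenEigenspace (ν * μ) :=
    gen_bilin (β := LinearMap.mul W.K (W.H _)) (fun x y =>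
      (map_mul (W.map (F.Fr _)) x y).symm) hxg hyg
  have h6 : x * y ∈ (fr F Z).maxGenEigenspace (((p ^ a : ℕ) : W.K) ^ Z.dim) := by
    apply eig_mem_gen
    refine F.deg ?_
    rw [← h2]
    exact W.mul_mem hx hy
  refine ⟨μ, eq_of_mem_gen h5 h6 hxy0, i', y, ⟨hyg, hy⟩, ?_⟩
  rintro rfl
  exact hxy0 (mul_zero x)

/-- slopes of algebraic integers -/
lemma lam_nonneg (ha : 0 < a) (hlam : ∀ z, (lam z : ℝ) = sl (p ^ a) ι z) {z : Qb}
    (hz : IsIntegral ℤ z) : 0 ≤ lam z := by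
  have h1 : ‖ι z‖ ≤ 1 := norm_le_one_of_isIntegral p _ (hz.map ι.toIntAlgHom)
  have h2 : (0 : ℝ) ≤ lam z := by
    rw [hlam, sl, Left.nonneg_neg_iff]
    exact Real.logb_nonpos (q_gt ha) (norm_nonneg _) h1
  exact_mod_cast h2

lemma integral_conj {z z' : Qb} (hz : IsIntegral ℤ z) (h : IsConjRoot ℚ z z') :
    IsIntegral ℤ z' := by
  obtain ⟨σ, rfl⟩ := isConjRoot_iff_exists_algEquiv.1 h.symm
  exact hz.map ((σ : Qb →+* Qb).toIntAlgHom)

/-- **The width of the eigenvalues is at most the dimension.** -/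
theorem width_le_dim [IsAlgClosed W.K] (ha : 0 < a) (hlam : ∀ z, (lam z : ℝ) = sl (p ^ a) ι z)
    (hZ : HasWeights F τ Z) (hI : HasIntegralEigenvalues F τ Z) :
    HasWidthAtMost F τ lam Z.dim Z := by
  have hq : 0 < p ^ a := pow_pos (Fact.out : p.Prime).pos a
  intro i β x hx hx0
  obtain ⟨β₀, hβ, hβ₀⟩ := hZ i (τ β) x hx hx0
  obtain rfl : β₀ = β := τ.injective hβ₀
  have hint : IsIntegral ℤ β₀ := hI β₀ ⟨i, x, hx, hx0⟩
  obtain ⟨μ, hμ, i', y, hy, hy0⟩ := exists_dual_eig (F := F) hx.2 hx.1 hx0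
  have hβ0 : β₀ ≠ 0 := hβ.ne_zero hq
  have hμ' : μ = τ (((p ^ a : ℕ) : Qb) ^ Z.dim / β₀) := by
    rw [map_div₀, map_pow, map_natCast, eq_div_iff ((map_ne_zero τ).2 hβ0), mul_comm]
    exact hμ
  have hint' : IsIntegral ℤ (((p ^ a : ℕ) : Qb) ^ Z.dim / β₀) :=
    hI _ ⟨i', y, hμ' ▸ hy, hy0⟩
  have key : ∀ β', IsConjRoot ℚ β₀ β' → 0 ≤ lam β' ∧ lam β' ≤ Z.dim := by
    intro β' hβ'
    have hβ'0 : β' ≠ 0 := (hβ.conj hβ').ne_zero hq
    refine ⟨lam_nonneg ha hlam (integral_conj hint hβ'), ?_⟩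
    have h1 : IsConjRoot ℚ (((p ^ a : ℕ) : Qb) ^ Z.dim / β₀)
        (((p ^ a : ℕ) : Qb) ^ Z.dim / β') := by
      obtain ⟨σ, hσ⟩ := isConjRoot_iff_exists_algEquiv.1 hβ'.symm
      refine (isConjRoot_iff_exists_algEquiv.2 ⟨σ, ?_⟩).symm
      rw [map_div₀, map_pow, map_natCast, hσ]
    have h2 := lam_nonneg ha hlam (integral_conj hint' h1)
    rw [lam_dual ha hlam hβ'0] at h2
    linarith
  intro β' hβ'
  have hβ'0 : β' ≠ 0 := (hβ.conj hβ').ne_zero hq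
  have h1 := key β' hβ'
  have h2 := key _ (hβ'.trans ((hβ.conj hβ').dual hq))
  rw [lam_dual ha hlam hβ'0] at h2
  rw [width, abs_le]
  constructor <;> linarith [h1.1, h1.2, h2.1, h2.2]

end Pool.Agent.H27.Lin
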