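import Pool.Agent.H27.Lin.Count
import Pool.Agent.H27.Lin.Dual

/-!
# The Tate conjecture for products, from products with few factors
-/

set_option autoImplicit false
set_option linter.unusedSectionVars false

open CategoryTheory AlgebraicGeometry

universe u v

namespace Pool.Agent.H27.Lin

open Pool.Agent.H914 hiding ev wt
open Pool.Agent.H447 Pool.Agent.H914.VarClass Pool.Agent.H914.VarClass.Obj
  Pool.Agent.H914.WeilCohomology Pool.Agent.H281R3.HT Pool.Agent.W534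
  Pool.Agent.W458.RK Pool.Agent.W458.MF Pool.Agent.W536.RR Pool.Agent.Y133.Half
open Pool.Agent.Q56.FD hiding Qb labs
open Pool.Agent.Q56.FE Pool.Agent.Q56.FR Pool.Agent.H27.K3

variable {k : Type u} [Field k] {𝒱 : VarClass k} {ops : CycleOps 𝒱}

variable {W : WeilCohomology.{u, v} ops} {p : ℕ} [Fact p.Prime] {a : ℕ} {I : Type*}
  {F : FrobeniusOver W (p ^ a)} {w : I → ℕ} {γ : I → Qb} {𝒞 : I → ℕ → Set 𝒱.Obj}
  {τ : Qb →+* W.K} {Z V V' Y A B : 𝒱.Obj} {lam : Qb → ℚ} {ι : Qb →+* PadicAlgCl p}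
  {𝒮 : Set (List 𝒱.Obj)}

/-- words come from products -/
lemma exists_pull (f : V ⟶ Z) : ∀ L : List (CL F w γ 𝒞 τ V),
    ∃ (g : V ⟶ prodL Z (L.map CL.Y)) (f' : prodL Z (L.map CL.Y) ⟶ Z)
      (L' : List (CL F w γ 𝒞 τ (prodL Z (L.map CL.Y)))), f = g ≫ f' ∧
        L = L'.map (CL.pull g) := by
  intro L
  induction L with
  | nil => exact ⟨f, 𝟙 Z, [], (Category.comp_id f).symm, rfl⟩
  | cons l L ih =>
    obtain ⟨g, f', L', hf, hL⟩ := ih
    let P := prodL Z (L.map CL.Y)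
    let h : V ⟶ P.prod l.Y := lift g l.f
    refine ⟨h, fst P l.Y ≫ f', ⟨l.t, l.r, l.Y, l.hY, snd P l.Y, l.z, l.hz, l.x, l.hx, l.hg⟩ ::
      L'.map (CL.pull (fst P l.Y)), ?_, ?_⟩
    · exact hf.trans ((congrArg (· ≫ f') (lift_fst g l.f).symm).trans (Category.assoc _ _ _))
    · change _ = CL.pull h _ :: (L'.map (CL.pull (fst P l.Y))).map (CL.pull h)
      rw [List.map_map]
      congr 1
      · obtain ⟨t, r, Y, hY, f, z, hz, x, hx, hg⟩ := l
        unfold CL.pull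
        congr 1
        exact (lift_snd g f).symm
      · conv_lhs => rw [hL]
        apply List.map_congr_left
        intro l' _
        obtain ⟨t', r', Y', hY', f'', z', hz', x, hx, hg⟩ := l'
        change (⟨t', r', Y', hY', g ≫ f'', z', hz', x, hx, hg⟩ : CL F w γ 𝒞 τ V) =
          ⟨t', r', Y', hY', h ≫ fst P l.Y ≫ f'', z', hz', x, hx, hg⟩
        congr 1
        rw [← Category.assoc]
        exact congrArg (· ≫ f'') (lift_fst g l.f).symm

lemma labs_pull (g : V' ⟶ V) (L : List (CL F w γ 𝒞 τ V)) : labs (L.map (CL.pull g)) = labs L := by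
  rw [labs, labs, List.map_map]
  rfl

lemma ev_pull (g : V' ⟶ V) (L : List (CL F w γ 𝒞 τ V)) : ev (L.map (CL.pull g)) = ev L := by
  rw [ev, ev, labs_pull]

lemma tw_pull (g : V' ⟶ V) (L : List (CL F w γ 𝒞 τ V)) : tw (L.map (CL.pull g)) = tw L := by
  rw [tw, tw, List.map_map]
  rfl

lemma wt_pull (g : V' ⟶ V) (L : List (CL F w γ 𝒞 τ V)) : wt (L.map (CL.pull g)) = wt L := by
  rw [wt, wt, List.map_map]
  rfl

variable {𝒜 : ∀ V : 𝒱.Obj, Submodule W.K (W.H V)}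

/-- a word which is pulled back from a variety for which the conjecture is known -/
lemma word_of_pull (h𝒜 : Good 𝒜) (hT : ∀ j, genEig F V' j ≤ 𝒜 V') {f : V ⟶ Z}
    {L : List (CL F w γ 𝒞 τ V)} {g : V ⟶ V'} {f' : V' ⟶ Z}
    {L' : List (CL F w γ 𝒞 τ V')} (hf : f = g ≫ f') (hLL : L = L'.map (CL.pull g))
    {i : ℕ} {β : Qb} {z : W.H Z} (hz : z ∈ W.gr Z i)
    (hzg : z ∈ (fr F Z).maxGenEigenspace (τ β))
    (hex : ∃ j : ℕ, β * ev L * ((p ^ a : ℕ) : Qb) ^ tw L = ((p ^ a : ℕ) : Qb) ^ j ∧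
        i + wt L + 2 * tw L = 2 * j) :
    W.map f z * word L ∈ 𝒜 V := by
  obtain ⟨j, hj1, hj2⟩ := hex
  have he : ev L' = ev L := by rw [hLL, ev_pull]
  have ht : tw L' = tw L := by rw [hLL, tw_pull]
  have hwt : wt L' = wt L := by rw [hLL, wt_pull]
  have h1 : W.map f' z * word L' ∈ genEig F V' j := by
    constructor
    · have h2 : W.map f' z * word L' ∈ (fr F V').maxGenEigenspace
          (τ β * τ (ev L' * ((p ^ a : ℕ) : Qb) ^ tw L')) :=
        gen_bilin (β := LinearMap.mul W.K (W.H _)) (fun x y =>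
          (map_mul (W.map (F.Fr _)) x y).symm) (gen_pull f' hzg) (word_gen L')
      rw [← map_mul] at h2
      rw [he, ht, ← mul_assoc, hj1, map_pow, map_natCast] at h2
      exact h2
    · change _ ∈ W.gr V' (2 * j)
      rw [← hj2, ← hwt, ← ht, add_assoc]
      exact W.mul_mem (W.map_mem _ hz) (word_mem L')
  have h2 := h𝒜.map g _ (hT j h1)
  rw [map_mul, ← word_pull, ← W.map_comp, ← hf, ← hLL] at h2
  exact h2

/-- the words without dual pairs -/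
def NoDual (q : ℕ) (w : I → ℕ) (L : List (I × Qb)) : Prop :=
  ∀ l ∈ L, (l.1, (q : Qb) ^ w l.1 / l.2) ∉ L

/-- **Words of weight zero are generated.** -/
theorem word_alg (h𝒜 : Good 𝒜) (hw : ∀ t, IsWeil (p ^ a) (w t) (γ t))
    (hne : ∀ t, γ t ^ 2 ≠ ((p ^ a : ℕ) : Qb) ^ w t)
    (hpair : ∀ t r r', ∀ Y ∈ 𝒞 t r, ∀ Y' ∈ 𝒞 t r',
      genEig F (Y.prod Y') (w t + r + r') ≤ 𝒜 (Y.prod Y'))
    (hT : ∀ l ∈ 𝒮, ∀ j, genEig F (prodL Z l) j ≤ 𝒜 (prodL Z l)) (f : V ⟶ Z) {i : ℕ} {β : Qb}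
    {x : W.H Z} (hx : x ∈ W.gr Z i) (hxg : x ∈ (fr F Z).maxGenEigenspace (τ β))
    (hshort : ∀ (L : List (CL F w γ 𝒞 τ V)), (∃ j : ℕ, β * ((labs L).map Prod.snd).prod =
      ((p ^ a : ℕ) : Qb) ^ j ∧ i + ((labs L).map fun l => w l.1).sum = 2 * j) →
        NoDual (p ^ a) w (labs L) → L.map CL.Y ∈ 𝒮) :
    ∀ (n : ℕ) (L : List (CL F w γ 𝒞 τ V)), L.length ≤ n →
      (∃ j : ℕ, β * ev L * ((p ^ a : ℕ) : Qb) ^ tw L = ((p ^ a : ℕ) : Qb) ^ j ∧
        i + wt L + 2 * tw L = 2 * j) → W.map f x * word L ∈ 𝒜 V := by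
  classical
  have hq : 0 < p ^ a := pow_pos (Fact.out : p.Prime).pos a
  have hq0 : ((p ^ a : ℕ) : Qb) ≠ 0 := qb_ne p a
  -- words without dual pairs
  have hno : ∀ L : List (CL F w γ 𝒞 τ V), (∃ j : ℕ, β * ev L * ((p ^ a : ℕ) : Qb) ^ tw L =
      ((p ^ a : ℕ) : Qb) ^ j ∧ i + wt L + 2 * tw L = 2 * j) → NoDual (p ^ a) w (labs L) →
        W.map f x * word L ∈ 𝒜 V := by
    intro L hex hnd
    obtain ⟨g, f', L', hf, hLL⟩ := exists_pull f L
    have hS : L.map CL.Y ∈ 𝒮 := by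
      obtain ⟨j, hj1, hj2⟩ := hex
      refine hshort L ⟨j - tw L, ?_, ?_⟩ hnd
      · apply mul_right_cancel₀ (pow_ne_zero (tw L) hq0)
        rw [← pow_add, Nat.sub_add_cancel (by omega)]
        exact hj1
      · rw [wt_eq]
        omega
    exact word_of_pull h𝒜 (hT _ hS) hf hLL hx hxg hex
  intro n
  induction n with
  | zero =>
    intro L hL hex
    obtain rfl : L = [] := List.length_eq_zero_iff.1 (Nat.le_zero.1 hL)
    exact hno [] hex fun l hl => absurd hl List.not_mem_nil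
  | succ n ih =>
    intro L hL hex
    by_cases hnd : NoDual (p ^ a) w (labs L)
    · exact hno L hex hnd
    obtain ⟨j, hj1, hj2⟩ := hex
    unfold NoDual at hnd
    push Not at hnd
    obtain ⟨u, hu, hdual⟩ := hnd
    obtain ⟨l, hl, rfl⟩ := List.mem_map.1 hu
    change (l.t, ((p ^ a : ℕ) : Qb) ^ w l.t / l.z) ∈ labs L at hdual
    obtain ⟨L₁, L₂, rfl⟩ := List.append_of_mem hl
    have hperm0 : (L₁ ++ l :: L₂).Perm (l :: (L₁ ++ L₂)) := List.perm_middle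
    have hz0 : l.z ≠ 0 := ((hw l.t).conj l.hz).ne_zero hq
    have hnot : (l.t, ((p ^ a : ℕ) : Qb) ^ w l.t / l.z) ≠ l.lab := by
      intro h
      have h1 : ((p ^ a : ℕ) : Qb) ^ w l.t / l.z = l.z := congrArg Prod.snd h
      rw [div_eq_iff hz0] at h1
      apply hne l.t
      obtain ⟨σ, hσ⟩ := isConjRoot_iff_exists_algEquiv.1 l.hz
      rw [← hσ, ← map_pow, sq, ← h1, map_pow, map_natCast]
    have hdual' : (l.t, ((p ^ a : ℕ) : Qb) ^ w l.t / l.z) ∈ labs (L₁ ++ L₂) := by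
      have h1 : (l.t, ((p ^ a : ℕ) : Qb) ^ w l.t / l.z) ∈ labs (l :: (L₁ ++ L₂)) :=
        (hperm0.map CL.lab).mem_iff.1 hdual
      rw [labs, List.map_cons, List.mem_cons] at h1
      exact h1.resolve_left hnot
    obtain ⟨l', hl', hlab⟩ := List.mem_map.1 hdual'
    have ht : l'.t = l.t := congrArg Prod.fst hlab
    have hz : l'.z = ((p ^ a : ℕ) : Qb) ^ w l.t / l.z := congrArg Prod.snd hlab
    obtain ⟨L₃, L₄, hL'⟩ := List.append_of_mem hl'
    have hperm : (L₁ ++ l :: L₂).Perm (l :: l' :: (L₃ ++ L₄)) := by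
      refine hperm0.trans ?_
      rw [hL']
      exact List.Perm.cons l List.perm_middle
    obtain ⟨c, hc⟩ := word_perm hperm
    have hblock := pair_alg h𝒜 hpair hw ht hz
    rw [hc, word_cons, word_cons, mul_smul_comm]
    refine Submodule.smul_mem _ _ ?_
    rw [← mul_assoc l.val, ← mul_assoc, ← h𝒜.comm _ _ hblock, mul_assoc]
    refine h𝒜.mul _ _ hblock _ (ih (L₃ ++ L₄) ?_ ?_)
    · have h1 := hperm.length_eq
      rw [List.length_cons, List.length_cons] at h1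
      omega
    · have h1 : ev (L₁ ++ l :: L₂) = l.z * (l'.z * ev (L₃ ++ L₄)) := by
        rw [ev_perm hperm, ev_cons, ev_cons]
      have h2 : tw (L₁ ++ l :: L₂) = l.r + (l'.r + tw (L₃ ++ L₄)) := by
        rw [tw_perm hperm, tw_cons, tw_cons]
      have h3 : wt (L₁ ++ l :: L₂) = w l.t + (w l.t + wt (L₃ ++ L₄)) := by
        rw [wt_perm hperm, wt_cons, wt_cons, ht]
      have hjle : w l.t + l.r + l'.r ≤ j := by omega
      refine ⟨j - (w l.t + l.r + l'.r), ?_, by omega⟩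
      apply mul_right_cancel₀ (pow_ne_zero (w l.t + l.r + l'.r) hq0)
      rw [← pow_add, Nat.sub_add_cancel hjle, ← hj1, h1, h2, hz, pow_add, pow_add, pow_add,
        pow_add]
      field_simp

/-- The generalised Tate classes of the products are generated. -/
theorem gen_prod [IsAlgClosed W.K] (h𝒜 : Good 𝒜) (ha : 0 < a)
    (hw : ∀ t, IsWeil (p ^ a) (w t) (γ t))
    (hne : ∀ t, γ t ^ 2 ≠ ((p ^ a : ℕ) : Qb) ^ w t) (hZ : HasWeights F τ Z)
    (h𝒞 : ∀ t r, ∀ Y ∈ 𝒞 t r, IsGenerated F τ w γ 𝒞 Y)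
    (hpair : ∀ t r r', ∀ Y ∈ 𝒞 t r, ∀ Y' ∈ 𝒞 t r',
      genEig F (Y.prod Y') (w t + r + r') ≤ 𝒜 (Y.prod Y'))
    (hT : ∀ l ∈ 𝒮, ∀ j, genEig F (prodL Z l) j ≤ 𝒜 (prodL Z l))
    (hshort : ∀ (i : ℕ) (β : Qb), IsWeil (p ^ a) i β → (∃ x ∈ genPart F Z (τ β) i, x ≠ 0) →
      ∀ (V : 𝒱.Obj) (L : List (CL F w γ 𝒞 τ V)), (∃ j : ℕ, β * ((labs L).map Prod.snd).prod =
      ((p ^ a : ℕ) : Qb) ^ j ∧ i + ((labs L).map fun l => w l.1).sum = 2 * j) →
        NoDual (p ^ a) w (labs L) → L.map CL.Y ∈ 𝒮)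
    (l : List 𝒱.Obj) (hl : ∀ Y ∈ l, ∃ t r, Y ∈ 𝒞 t r) (j : ℕ) :
    genEig F (prodL Z l) j ≤ 𝒜 (prodL Z l) := by
  have hq0 : ((p ^ a : ℕ) : Qb) ≠ 0 := qb_ne p a
  intro x hx
  have hspan := RW_prodL hZ h𝒞 l hl x
  have hword : ∀ (n : ℕ) (c : W.H (prodL Z l)) (f : prodL Z l ⟶ Z) (β : Qb) (z : W.H Z)
      (L : List (CL F w γ 𝒞 τ (prodL Z l))), c ∈ spanCycles W (prodL Z l) n →
      z ∈ (fr F Z).maxGenEigenspace (τ β) → c * (W.map f z * word L) ∈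
        (fr F (prodL Z l)).maxGenEigenspace (τ (((p ^ a : ℕ) : Qb) ^ n *
          (β * (ev L * ((p ^ a : ℕ) : Qb) ^ tw L)))) := by
    intro n c f β z L hc hz
    have h1 : W.map f z * word L ∈ (fr F (prodL Z l)).maxGenEigenspace
        (τ β * τ (ev L * ((p ^ a : ℕ) : Qb) ^ tw L)) :=
      gen_bilin (β := LinearMap.mul W.K (W.H _)) (fun x y =>
        (map_mul (W.map (F.Fr _)) x y).symm) (gen_pull f hz) (word_gen L)
    have h2 : c * (W.map f z * word L) ∈ (fr F (prodL Z l)).maxGenEigenspace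
        (((p ^ a : ℕ) : W.K) ^ n * (τ β * τ (ev L * ((p ^ a : ℕ) : Qb) ^ tw L))) :=
      gen_bilin (β := LinearMap.mul W.K (W.H _)) (fun x y =>
        (map_mul (W.map (F.Fr _)) x y).symm) (cyc_eig hc) h1
    rw [map_mul τ (((p ^ a : ℕ) : Qb) ^ n), map_mul τ β, map_pow, map_natCast]
    exact h2
  have hgen : ∀ v ∈ RW F w γ 𝒞 τ Z (prodL Z l),
      ∃ μ, v ∈ (fr F (prodL Z l)).maxGenEigenspace μ := by
    rintro v ⟨n, c, f, i, β, z, L, hc, hβ, hz, hzg, rfl⟩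
    exact ⟨_, hword n c f β z L hc hzg⟩
  have h3 := mem_span_gen (T := fr F (prodL Z l)) hgen hspan hx.1
  refine (Submodule.span_le (p := 𝒜 (prodL Z l))).2 ?_ h3
  rintro v ⟨⟨n, c, f, i, β, z, L, hc, hβ, hz, hzg, rfl⟩, hvμ⟩
  by_cases hv0 : c * (W.map f z * word L) = 0
  · rw [hv0]
    exact Submodule.zero_mem _
  have hz0 : z ≠ 0 := by
    rintro rfl
    apply hv0
    rw [map_zero, zero_mul, mul_zero]
  have h4 := eq_of_mem_gen (hword n c f β z L hc hzg) hvμ hv0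
  have h5 : ((p ^ a : ℕ) : Qb) ^ n * (β * (ev L * ((p ^ a : ℕ) : Qb) ^ tw L)) =
      ((p ^ a : ℕ) : Qb) ^ j := by
    apply τ.injective
    rw [h4, map_pow, map_natCast]
  -- the weights
  have h6 : i + wt L + 2 * tw L + 2 * n = 2 * j := by
    obtain ⟨φ⟩ := exists_cpx
    have h6 := congrArg (fun z => ‖φ z‖ ^ 2) h5
    have h7 : ‖φ ((p ^ a : ℕ) : Qb)‖ = ((p ^ a : ℕ) : ℝ) := by
      rw [map_natCast, Complex.norm_natCast]
    simp only [map_mul, map_pow φ, norm_mul, norm_pow, mul_pow, h7] at h6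
    rw [hβ φ, ev_norm_sq hw] at h6
    have h8 : ((p ^ a : ℕ) : ℝ) ^ (i + wt L + 2 * tw L + 2 * n) = ((p ^ a : ℕ) : ℝ) ^ (2 * j) := by
      calc ((p ^ a : ℕ) : ℝ) ^ (i + wt L + 2 * tw L + 2 * n) = _ := by
            rw [pow_add, pow_add, pow_add]
        _ = (((p ^ a : ℕ) : ℝ) ^ n) ^ 2 * (((p ^ a : ℕ) : ℝ) ^ i * (((p ^ a : ℕ) : ℝ) ^ wt L *
            (((p ^ a : ℕ) : ℝ) ^ tw L) ^ 2)) := by ring
        _ = _ := h6
        _ = _ := by ring
    exact (pow_right_injective₀ (q_pos (p := p) (e := a)) (q_gt ha).ne') h8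
  refine h𝒜.mul _ _ (h𝒜.alg _ (cyc_alg hc)) _ ?_
  refine word_alg h𝒜 hw hne hpair hT f hz hzg
    (fun L hex hnd => hshort i β hβ ⟨z, ⟨hzg, hz⟩, hz0⟩ _ L hex hnd)
    L.length L le_rfl ⟨j - n, ?_, by omega⟩
  apply mul_right_cancel₀ (pow_ne_zero n hq0)
  rw [← pow_add, Nat.sub_add_cancel (by omega), ← h5]
  ring

/-- the lists of the words without dual pairs are short -/
lemma mem_shortLists (ha : 0 < a) (hlam : ∀ z, (lam z : ℝ) = sl (p ^ a) ι z)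
    (hw : ∀ t, IsWeil (p ^ a) (w t) (γ t)) (h3 : ∀ t, IsK3Type lam (p ^ a) (w t) (γ t))
    (h : SignsIndependent (p ^ a) w γ) {D : ℚ} (hD : HasWidthAtMost F τ lam D Z)
    (i : ℕ) (β : Qb) (hβ : IsWeil (p ^ a) i β) (hx : ∃ x ∈ genPart F Z (τ β) i, x ≠ 0)
    (V : 𝒱.Obj) (L : List (CL F w γ 𝒞 τ V)) (hex : ∃ j : ℕ, β * ((labs L).map Prod.snd).prod =
      ((p ^ a : ℕ) : Qb) ^ j ∧ i + ((labs L).map fun l => w l.1).sum = 2 * j)
    (hnd : NoDual (p ^ a) w (labs L)) : L.map CL.Y ∈ shortLists lam w γ D 𝒞 := by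
  obtain ⟨x, hx, hx0⟩ := hx
  obtain ⟨j, hj1, hj2⟩ := hex
  refine ⟨L.map fun l => (l.t, l.Y), ?_, ?_, ?_⟩
  · rw [List.map_map]
    rfl
  · intro u hu
    obtain ⟨l, _, rfl⟩ := List.mem_map.1 hu
    exact ⟨l.r, l.hY⟩
  · rw [List.map_map]
    have h1 : L.map (Prod.fst ∘ fun l => (l.t, l.Y)) = (labs L).map Prod.fst := by
      rw [labs, List.map_map]
      rfl
    rw [h1]
    refine isShort ha hlam hw h3 h hβ (fun β' hβ' => hD i β x hx hx0 β' hβ') ?_ hj1 hj2 hnd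
    intro l hl
    obtain ⟨l', _, rfl⟩ := List.mem_map.1 hl
    exact l'.hz

lemma shortGens_map {V V' : 𝒱.Obj} (f : V ⟶ V') {x : W.H V'}
    (hx : x ∈ shortGenerators F w 𝒞 𝒮 Z V') : W.map f x ∈ shortGenerators F w 𝒞 𝒮 Z V := by
  rcases hx with (⟨j, hc⟩ | ⟨l, hl, g, j, y, hy, rfl⟩) | ⟨t, r, r', Y, hY, Y', hY', g, y, hy, rfl⟩
  · exact Or.inl (Or.inl ⟨j, cyc_map f hc⟩)
  · exact Or.inl (Or.inr ⟨l, hl, f ≫ g, j, y, hy, W.map_comp f g y⟩)
  · exact Or.inr ⟨t, r, r', Y, hY, Y', hY', f ≫ g, y, hy, W.map_comp f g y⟩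

lemma shortGens_even {V : 𝒱.Obj} {x : W.H V} (hx : x ∈ shortGenerators F w 𝒞 𝒮 Z V) :
    ∃ n : ℕ, x ∈ W.gr V (2 * n) := by
  rcases hx with (⟨j, hc⟩ | ⟨l, hl, g, j, y, hy, rfl⟩) | ⟨t, r, r', Y, hY, Y', hY', g, y, hy, rfl⟩
  · exact ⟨j, cyc_deg hc⟩
  · exact ⟨j, W.map_mem g hy.2⟩
  · exact ⟨w t + r + r', W.map_mem g hy.2⟩

lemma good_short : Good (W := W) (fun V => Subalgebra.toSubmodule
    (Algebra.adjoin W.K (shortGenerators F w 𝒞 𝒮 Z V))) where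
  alg V := by
    refine Submodule.span_le.2 ?_
    intro x hx
    obtain ⟨j, c, hc, rfl⟩ := Set.mem_iUnion.1 hx
    exact Algebra.subset_adjoin (Or.inl (Or.inl ⟨j,
      spanCycles_of_algSpan (cl_mem_algSpan hc) (W.cl_mem hc)⟩))
  mul V x hx y hy := Subalgebra.mul_mem _ hx hy
  map {V V'} f x hx := by
    change x ∈ Algebra.adjoin W.K _ at hx
    change W.map f x ∈ Algebra.adjoin W.K _
    induction hx using Algebra.adjoin_induction with
    | mem x hx => exact Algebra.subset_adjoin (shortGens_map f hx)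
    | algebraMap r => rw [AlgHom.commutes]; exact Subalgebra.algebraMap_mem _ r
    | add x y _ _ hx hy => rw [map_add]; exact Subalgebra.add_mem _ hx hy
    | mul x y _ _ hx hy => rw [map_mul]; exact Subalgebra.mul_mem _ hx hy
  comm V x hx y := by
    change x ∈ Algebra.adjoin W.K _ at hx
    induction hx using Algebra.adjoin_induction with
    | mem x hx =>
      obtain ⟨n, hn⟩ := shortGens_even hx
      exact W.even_comm hn y
    | algebraMap r => exact Algebra.commutes r y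
    | add x z _ _ hx hz => rw [add_mul, mul_add, hx, hz]
    | mul x z _ _ hx hz => rw [mul_assoc, hz, ← mul_assoc, hx, mul_assoc]

/-- **The main theorem.** -/
theorem tateFromShort [IsAlgClosed W.K] (ha : 0 < a)
    (hlam : ∀ z, (lam z : ℝ) = sl (p ^ a) ι z) (hw : ∀ t, IsWeil (p ^ a) (w t) (γ t))
    (h3 : ∀ t, IsK3Type lam (p ^ a) (w t) (γ t)) (h : SignsIndependent (p ^ a) w γ)
    (hZ : HasWeights F τ Z) {D : ℚ} (hD : HasWidthAtMost F τ lam D Z)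
    (h𝒞 : ∀ t r, ∀ Y ∈ 𝒞 t r, IsGenerated F τ w γ 𝒞 Y) :
    TateFromShort F w 𝒞 (shortLists lam w γ D 𝒞) Z := by
  have hne : ∀ t, γ t ^ 2 ≠ ((p ^ a : ℕ) : Qb) ^ w t := fun t => k3_ne ha hlam (hw t) (h3 t)
  have hs := fun i β hβ hx V L hex hnd =>
    mem_shortLists (F := F) (τ := τ) (Z := Z) (𝒞 := 𝒞) ha hlam hw h3 h hD i β hβ hx V L hex hnd
  intro l hl
  refine ⟨fun j => gen_prod (F := F) (Z := Z) (𝒮 := shortLists lam w γ D 𝒞) good_short ha hw hne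
    hZ h𝒞 ?_ ?_ hs l hl j, fun hT hpair => ?_⟩
  · intro t r r' Y hY Y' hY' x hx
    exact Algebra.subset_adjoin (Or.inr ⟨t, r, r', Y, hY, Y', hY', 𝟙 _, x, hx, W.map_id _ x⟩)
  · intro l hl j x hx
    exact Algebra.subset_adjoin (Or.inl (Or.inr ⟨l, hl, 𝟙 _, j, x, hx, W.map_id _ x⟩))
  · have h : ∀ j, TateHolds F (prodL Z l) j := fun j => holds_iff.2
      (gen_prod (F := F) (Z := Z) (𝒮 := shortLists lam w γ D 𝒞) good_algSpan ha hw hne hZ h𝒞
        (fun t r r' Y hY Y' hY' => holds_iff.1 (hpair t r r' Y hY Y' hY'))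
        (fun l hl j => holds_iff.1 (hT l hl j)) hs l hl j)
    exact fun j => ⟨h j, full_of_strong ha (fun j => holds_iff_strong.1 (h j)) j⟩

end Pool.Agent.H27.Lin
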